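import Mathlib

namespace Pool.Agent.Results.MP_5790d7_co.Counterexample

/-- `A ≤ B`: `A` embeds in `B`. -/
def Emb (A B : Type) [LinearOrder A] [LinearOrder B] : Prop := Nonempty (A ↪o B)

/-- `A < B`: `A ≤ B` but not `B ≤ A`. -/
def SEmb (A B : Type) [LinearOrder A] [LinearOrder B] : Prop := Emb A B ∧ ¬ Emb B A

/-- For every splitting of `A` into an initial interval `B` and the complementary final interval,
`A` embeds in one of the two parts. -/
def Unsecable (A : Type) [LinearOrder A] : Prop :=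
  ∀ B : Set A, IsLowerSet B → Emb A B ∨ Emb A (Bᶜ : Set A)

abbrev A0 := WithBot ℕᵒᵈ

def nn (n : ℕ) : A0 := ((OrderDual.toDual n : ℕᵒᵈ) : WithBot ℕᵒᵈ)

theorem nn_le {m n : ℕ} : nn m ≤ nn n ↔ n ≤ m := by simp [nn]

theorem nn_inj : Function.Injective nn := fun _ _ h =>
  le_antisymm (nn_le.1 h.ge) (nn_le.1 h.le)

instance : Infinite A0 := Infinite.of_injective nn nn_inj

theorem not_fin {X : Type} [LinearOrder X] [Finite X] : ¬ Emb A0 X :=
  fun ⟨f⟩ => not_injective_infinite_finite f f.injective

theorem cases (x : A0) : x = ⊥ ∨ ∃ n, x = nn n := by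
  induction x using WithBot.recBotCoe with
  | bot => exact Or.inl rfl
  | coe a => exact Or.inr ⟨OrderDual.ofDual a, rfl⟩

/-- The countable chain `1 + ω*` satisfies the doubling condition and is not unsecable. -/
theorem result : ∃ (A : Type) (_ : LinearOrder A), Countable A ∧
    (∀ X : Set A, IsLowerSet X → SEmb X A → SEmb (X ⊕ₗ X) A) ∧ ¬ Unsecable A := by
  refine ⟨A0, inferInstance, inferInstance, fun X hX h => ?_, fun h => ?_⟩
  · have h1 : ∀ x ∈ X, x = ⊥ := by
      intro x hx
      rcases cases x with h1 | ⟨n, rfl⟩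
      · exact h1
      refine absurd ⟨OrderEmbedding.ofStrictMono (fun y => ⟨WithBot.map
        (fun m : ℕᵒᵈ => OrderDual.toDual (OrderDual.ofDual m + n)) y, hX ?_ hx⟩) ?_⟩ h.2
      · rcases cases y with rfl | ⟨m, rfl⟩
        · exact bot_le
        · exact nn_le.2 (Nat.le_add_left n m)
      · intro a b hab
        rcases cases a with rfl | ⟨a, rfl⟩ <;> rcases cases b with rfl | ⟨b, rfl⟩
        · exact absurd hab (lt_irrefl _)
        · exact WithBot.bot_lt_coe _
        · exact absurd hab not_lt_bot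
        · show nn (a + n) < nn (b + n)
          rw [← not_le, nn_le] at hab ⊢
          omega
    haveI : Subsingleton X := ⟨fun a b => Subtype.ext ((h1 _ a.2).trans (h1 _ b.2).symm)⟩
    haveI : Finite (X ⊕ₗ X) := inferInstanceAs (Finite (X ⊕ X))
    refine ⟨⟨OrderEmbedding.ofStrictMono
      (fun y => Sum.elim (fun _ => ⊥) (fun _ => nn 0) (ofLex y)) ?_⟩, not_fin⟩
    rintro (a | a) (b | b) hab
    · exact absurd (Subsingleton.elim a b) (Sum.Lex.inl_lt_inl_iff.1 hab).ne
    · exact WithBot.bot_lt_coe _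
    · exact absurd hab Sum.Lex.not_inr_lt_inl
    · exact absurd (Subsingleton.elim a b) (Sum.Lex.inr_lt_inr_iff.1 hab).ne
  · rcases h {⊥} (fun a b hab ha => le_bot_iff.1 (ha ▸ hab)) with h | ⟨⟨f⟩⟩
    · exact not_fin h
    · have h1 : ∀ x, ∃ n, (f x : A0) = nn n := fun x => (cases _).resolve_left (f x).2
      choose g hg using h1
      have h2 : ∀ x, g x ≤ g ⊥ := fun x => nn_le.1 (by
        rw [← hg, ← hg]; exact f.monotone bot_le)
      exact not_injective_infinite_finite (fun x => (⟨g x, Nat.lt_succ_of_le (h2 x)⟩ :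
        Fin (g ⊥ + 1))) fun x y e => f.injective (Subtype.ext (by
          rw [hg, hg, show g x = g y from congrArg Fin.val e]))

end Pool.Agent.Results.MP_5790d7_co.Counterexample
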